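import Pool.Agent.Lib.MP_8b3f09_an.Sub

/-!
MP_8b3f09_an: the origin is an SCD point of the unit ball of every nonzero real or complex space
that embeds isomorphically into a Banach space with an unconditional basis.
-/

namespace Pool.Agent.Results.MP_8b3f09_an.Embedded

open Pool.Agent.Lib.MP_8b3f09_an

/-- `J` is an isomorphic embedding of `X` into the Banach space `Y` with unconditional basis `e`;
the case `X = Y`, `J = id` is the negated form of Q1. -/
theorem result {𝕜 X Y : Type*} [RCLike 𝕜] [NormedAddCommGroup X] [NormedSpace 𝕜 X]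
    [NormedSpace ℝ X] [IsScalarTower ℝ 𝕜 X] [Nontrivial X] [NormedAddCommGroup Y]
    [NormedSpace 𝕜 Y] [CompleteSpace Y] (e : ℕ → Y) (he : IsUncondBasis 𝕜 e) (J : X →L[𝕜] Y)
    (c : ℝ) (hc : 0 < c) (hJ : ∀ x, c * ‖x‖ ≤ ‖J x‖) :
    IsSCDPoint 𝕜 (Metric.closedBall (0 : X) 1) 0 :=
  zero_scd_of_embed he J hc hJ

end Pool.Agent.Results.MP_8b3f09_an.Embedded
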