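import Pool.Agent.Lib.MP_8b3f09_an_SR.Upper

/-!
MP_8b3f09_an: the exact size of the smallest set of SCD points of the unit ball of a Banach space
with a `k`-unconditional basis.
-/

namespace Pool.Agent.Results.MP_8b3f09_an.SharpRadius

open Pool.Agent.Lib.MP_8b3f09_an

universe u v

/-- For every `k ≥ 1` the closed ball of radius `max (2 - k) 0` consists of SCD points of the unit
ball whenever the space has a `k`-unconditional basis, and for some real space with a
`k`-unconditional basis there are no other SCD points. -/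
theorem result (k : ℝ) (hk : 1 ≤ k) :
    (∀ (𝕜 : Type u) (X : Type v) [RCLike 𝕜] [NormedAddCommGroup X] [NormedSpace 𝕜 X]
      [NormedSpace ℝ X] [IsScalarTower ℝ 𝕜 X] [CompleteSpace X] (e : ℕ → X),
      IsKUncondBasis 𝕜 k e → Metric.closedBall (0 : X) (max (2 - k) 0)
        ⊆ {x | IsSCDPoint 𝕜 (Metric.closedBall (0 : X) 1) x}) ∧
    ∃ (X : Type) (_ : NormedAddCommGroup X) (_ : NormedSpace ℝ X) (_ : CompleteSpace X)
      (e : ℕ → X), IsKUncondBasis ℝ k e ∧
        {x | IsSCDPoint ℝ (Metric.closedBall (0 : X) 1) x}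
          = Metric.closedBall (0 : X) (max (2 - k) 0) :=
  ⟨fun _ _ _ _ _ _ _ _ _ he _ hx => SR.lower hk he (mem_closedBall_zero_iff.1 hx),
    SR.exists_sharp hk⟩

end Pool.Agent.Results.MP_8b3f09_an.SharpRadius
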